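import Pool.Agent.U469.EW.Stm

/-!
# Project EW, package QUA: products of the components of the part of the field in `W`
-/

set_option autoImplicit false

open MeasureTheory Set Filter Topology
open scoped ENNReal

namespace Pool.Agent.U423.EW.QUA

open Pool.Agent.U469.EW

theorem ch_add (j l : Wv) (y : Fin 3 → ℝ) : ch (j + l) y = ch j y * ch l y := by
  unfold ch
  rw [← Complex.exp_add, ← mul_add, ← Finset.sum_add_distrib]
  congr 2
  refine Finset.sum_congr rfl fun i _ => ?_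
  rw [Pi.add_apply]
  push_cast
  ring

theorem ch_cont (k : Wv) : Continuous fun y : Fin 3 → ℝ => ch k y := by
  unfold ch
  fun_prop

theorem ev_cont (W : Finset Wv) (a : Fld) (i : Fin 3) :
    Continuous fun y : Fin 3 → ℝ => ev W a y i := by
  unfold ev
  exact continuous_finsetSum _ fun k _ => continuous_const.mul (ch_cont k)

/-- the coefficients of the product -/
noncomputable def cf (W : Finset Wv) (a : Fld) (m i : Fin 3) (k : Wv) : ℂ :=
  ∑ j ∈ W.filter (fun j => k - j ∈ W), a j m * a (k - j) i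

/-- the frequencies of the product -/
noncomputable def S2 (W : Finset Wv) : Finset Wv := (W ×ˢ W).image fun p => p.1 + p.2

theorem ev_mul (W : Finset Wv) (a : Fld) (y : Fin 3 → ℝ) (m i : Fin 3) :
    ev W a y m * ev W a y i = ∑ k ∈ S2 W, cf W a m i k * ch k y := by
  unfold ev
  rw [Finset.sum_mul_sum, ← Finset.sum_product',
    ← Finset.sum_fiberwise_of_maps_to (s := W ×ˢ W) (t := S2 W) (g := fun p => p.1 + p.2)
      (fun p hp => Finset.mem_image_of_mem _ hp)]
  refine Finset.sum_congr rfl fun k _ => ?_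
  unfold cf
  rw [Finset.sum_mul]
  refine Finset.sum_nbij' (fun p => p.1) (fun j => (j, k - j)) ?_ ?_ ?_ ?_ ?_
  · rintro ⟨j, l⟩ hp
    obtain ⟨hp1, hp2⟩ := Finset.mem_filter.1 hp
    obtain ⟨hj, hl⟩ := Finset.mem_product.1 hp1
    simp only at hp2 hj hl ⊢
    rw [Finset.mem_filter]
    refine ⟨hj, ?_⟩
    rw [← hp2, add_sub_cancel_left]
    exact hl
  · intro j hj
    obtain ⟨hj1, hj2⟩ := Finset.mem_filter.1 hj
    rw [Finset.mem_filter, Finset.mem_product]
    exact ⟨⟨hj1, hj2⟩, add_sub_cancel _ _⟩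
  · rintro ⟨j, l⟩ hp
    obtain ⟨hp1, hp2⟩ := Finset.mem_filter.1 hp
    simp only at hp2 ⊢
    rw [← hp2, add_sub_cancel_left]
  · intro j _
    rfl
  · rintro ⟨j, l⟩ hp
    obtain ⟨hp1, hp2⟩ := Finset.mem_filter.1 hp
    simp only at hp2 ⊢
    rw [← hp2, add_sub_cancel_left, ch_add]
    ring

theorem cf_zero (W : Finset Wv) (a : Fld) (m i : Fin 3) (k : Wv) (hk : k ∉ S2 W) :
    cf W a m i k = 0 := by
  unfold cf
  rw [Finset.sum_eq_zero]
  intro j hj
  exfalso
  obtain ⟨hj1, hj2⟩ := Finset.mem_filter.1 hj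
  apply hk
  exact Finset.mem_image.2 ⟨(j, k - j), Finset.mem_product.2 ⟨hj1, hj2⟩, add_sub_cancel _ _⟩

theorem amp_sq (W : Finset Wv) (a : Fld) (y : Fin 3 → ℝ) :
    amp W a y ^ 2 = ∑ m, ∑ i, ‖ev W a y m * ev W a y i‖ ^ 2 := by
  unfold amp
  rw [_root_.sq, Finset.sum_mul_sum]
  refine Finset.sum_congr rfl fun m _ => Finset.sum_congr rfl fun i _ => ?_
  rw [norm_mul, mul_pow]

theorem t_QUA (hP : S_PAR) : S_QUA := by
  intro W K a
  have hint : ∀ m i : Fin 3, IntegrableOn (fun y : Fin 3 → ℝ => ‖ev W a y m * ev W a y i‖ ^ 2)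
      (Icc (0 : Fin 3 → ℝ) 1) := fun m i =>
    (((ev_cont W a m).mul (ev_cont W a i)).norm.pow 2).continuousOn.integrableOn_compact
      isCompact_Icc
  have h1 : ∫ y in Icc (0 : Fin 3 → ℝ) 1, amp W a y ^ 2 =
      ∑ m : Fin 3, ∑ i : Fin 3, ∑ k ∈ S2 W, ‖cf W a m i k‖ ^ 2 := by
    simp only [amp_sq]
    rw [integral_finsetSum _ fun m _ => integrable_finsetSum _ fun i _ => hint m i]
    refine Finset.sum_congr rfl fun m _ => ?_
    rw [integral_finsetSum _ fun i _ => hint m i]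
    refine Finset.sum_congr rfl fun i _ => ?_
    rw [← hP (S2 W) (cf W a m i)]
    refine integral_congr_ae (Filter.Eventually.of_forall fun y => ?_)
    simp only [ev_mul]
  rw [h1, Finset.sum_comm]
  refine Finset.sum_le_sum fun m _ => ?_
  rw [Finset.sum_comm]
  refine Finset.sum_le_sum fun i _ => ?_
  calc ∑ k ∈ K, ‖cf W a m i k‖ ^ 2 = ∑ k ∈ K ∩ S2 W, ‖cf W a m i k‖ ^ 2 := by
        symm
        apply Finset.sum_subset Finset.inter_subset_left
        intro k hk hk2
        rw [cf_zero W a m i k fun h => hk2 (Finset.mem_inter.2 ⟨hk, h⟩), norm_zero]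
        norm_num
    _ ≤ ∑ k ∈ S2 W, ‖cf W a m i k‖ ^ 2 :=
        Finset.sum_le_sum_of_subset_of_nonneg Finset.inter_subset_right fun _ _ _ => by positivity

end Pool.Agent.U423.EW.QUA
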